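import Pool.Agent.Helper40.JE.SlowCase
import Pool.Agent.Helper66.JE.SlowAvg

/-!
Block T12 of MP_ce5406_an: the case of exponents smaller than one.
-/

open MeasureTheory Filter Topology Finset
open scoped BigOperators ComplexConjugate

namespace Pool.Agent.JE

variable {X : Type} [MeasurableSpace X] {μ : Measure X} [IsProbabilityMeasure μ]

theorem slow_case (A : Act X μ) (hte : ∀ m : ℕ, 1 ≤ m → Ergodic (A.S m) μ)
    (B : Finset ℝ) (hB : ∀ b ∈ B, 0 < b ∧ b < 1) (f : ℝ → X → ℂ) (hf : ∀ b, Bdd (f b)) :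
    Tendsto (fun N => n2 μ (fun x => avg N (fun n => ∏ b ∈ B, f b (A.S (sq b n) x)) -
      ∏ b ∈ B, ∫ y, f b y ∂μ)) atTop (𝓝 0) := by
  refine Slow.slow_case_of ?_ A hte B hB f hf
  intro E _ _ I _ κ γ hκ hγ hγ1 κs τs hτ g hb hg
  exact slow_avg κ γ hκ hγ hγ1 κs τs hτ g hb hg

end Pool.Agent.JE
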