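import Pool.Agent.Helper65.JE.Pet2
import Pool.Agent.Helper29.JE.Null

/-!
Block R2 of MP_ce5406_an: correlations of null functions along quadratic polynomials.
-/

open MeasureTheory Filter Topology Finset
open scoped BigOperators ComplexConjugate

namespace Pool.Agent.JE

namespace SlowCor

theorem av_mono (t K : ℕ) : ∀ {G G' : List ℕ → ℝ}, (∀ l, l.length = t → G l ≤ G' l) →
    av t K G ≤ av t K G' := by
  induction t with
  | zero => intro G G' h; exact h [] rfl
  | succ t ih =>
    intro G G' h
    simp only [av]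
    gcongr with x hx
    exact ih (fun l hl => h (x :: l) (by simp [hl]))

theorem av_nonneg (t K : ℕ) {G : List ℕ → ℝ} (h : ∀ l, 0 ≤ G l) : 0 ≤ av t K G := by
  induction t generalizing G with
  | zero => exact h []
  | succ t ih =>
    simp only [av]
    exact div_nonneg (Finset.sum_nonneg fun x _ => ih (fun l => h (x :: l))) (Nat.cast_nonneg _)

theorem av_add (t K : ℕ) : ∀ (G G' : List ℕ → ℝ),
    av t K (fun l => G l + G' l) = av t K G + av t K G' := by
  induction t with
  | zero => intro G G'; rfl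
  | succ t ih =>
    intro G G'
    simp only [av, ih, Finset.sum_add_distrib, add_div]

theorem av_zero_fun (t K : ℕ) : av t K (fun _ => (0 : ℝ)) = 0 := by
  induction t with
  | zero => rfl
  | succ t ih => simp only [av, ih, Finset.sum_const_zero, zero_div]

theorem av_le_one (t K : ℕ) {G : List ℕ → ℝ} (h : ∀ l, G l ≤ 1) : av t K G ≤ 1 := by
  induction t generalizing G with
  | zero => exact h []
  | succ t ih =>
    simp only [av]
    rcases Nat.eq_zero_or_pos K with hK | hK
    · subst hK; simp
    · rw [div_le_one (by exact_mod_cast hK)]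
      calc ∑ x ∈ range K, av t K (fun l => G (x :: l)) ≤ ∑ x ∈ range K, (1 : ℝ) :=
            Finset.sum_le_sum fun x _ => ih (fun l => h (x :: l))
        _ = K := by simp

theorem av_tendsto (t K : ℕ) : ∀ (φ : ℕ → List ℕ → ℝ),
    (∀ l, Tendsto (fun n => φ n l) atTop (𝓝 0)) →
    Tendsto (fun n => av t K (φ n)) atTop (𝓝 0) := by
  induction t with
  | zero => intro φ h; exact h []
  | succ t ih =>
    intro φ h
    simp only [av]
    have h1 : Tendsto (fun n => ∑ x ∈ range K, av t K (fun l => φ n (x :: l))) atTop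
        (𝓝 (∑ x ∈ range K, (0 : ℝ))) :=
      tendsto_finset_sum _ fun x _ => ih (fun n l => φ n (x :: l)) (fun l => h (x :: l))
    simpa using h1.div_const (K : ℝ)

/-- dilations -/
theorem av_dilate (D H : ℕ) (hD : 1 ≤ D) (hH : 1 ≤ H) : ∀ (d : List ℕ),
    (∀ x ∈ d, 1 ≤ x ∧ x ≤ D) → ∀ (G : List ℕ → ℝ), (∀ l, 0 ≤ G l) →
    av d.length H (fun m => G (List.zipWith (fun a h => a * h) d m)) ≤
      (D : ℝ) ^ d.length * av d.length (D * H) G := by
  intro d
  induction d with
  | nil => intro _ G _; simp [av]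
  | cons a d ih =>
    intro hd G hG
    have ha := hd a (by simp)
    have hd' : ∀ x ∈ d, 1 ≤ x ∧ x ≤ D := fun x hx => hd x (by simp [hx])
    have hH0 : (0 : ℝ) < H := by exact_mod_cast hH
    have hD0 : (0 : ℝ) < D := by exact_mod_cast hD
    simp only [List.length_cons, av, List.zipWith_cons_cons]
    have h1 : ∀ x ∈ range H, av d.length H (fun m => G (a * x :: List.zipWith (fun a h => a * h) d m))
        ≤ (D : ℝ) ^ d.length * av d.length (D * H) (fun l => G (a * x :: l)) :=
      fun x _ => ih hd' (fun l => G (a * x :: l)) (fun l => hG _)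
    have h2 : ∑ x ∈ range H, av d.length (D * H) (fun l => G (a * x :: l)) ≤
        ∑ y ∈ range (D * H), av d.length (D * H) (fun l => G (y :: l)) := by
      rw [← Finset.sum_image (s := range H) (g := fun x => a * x)
        (f := fun y => av d.length (D * H) (fun l => G (y :: l)))]
      · refine Finset.sum_le_sum_of_subset_of_nonneg ?_ (fun y _ _ => av_nonneg _ _ (fun l => hG _))
        intro y hy
        rw [Finset.mem_image] at hy
        obtain ⟨x, hx, rfl⟩ := hy
        rw [Finset.mem_range] at hx ⊢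
        calc a * x < a * H := Nat.mul_lt_mul_of_pos_left hx (by omega)
          _ ≤ D * H := Nat.mul_le_mul_right _ ha.2
      · intro x _ y _ hxy
        exact Nat.eq_of_mul_eq_mul_left (by omega) hxy
    calc (∑ x ∈ range H, av d.length H
          (fun m => G (a * x :: List.zipWith (fun a h => a * h) d m))) / (H : ℝ)
        ≤ (∑ x ∈ range H, (D : ℝ) ^ d.length * av d.length (D * H) (fun l => G (a * x :: l))) /
          (H : ℝ) := by
          gcongr with x hx
          exact h1 x hx
      _ = (D : ℝ) ^ d.length * (∑ x ∈ range H, av d.length (D * H) (fun l => G (a * x :: l))) /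
          (H : ℝ) := by rw [Finset.mul_sum]
      _ ≤ (D : ℝ) ^ d.length * (∑ y ∈ range (D * H), av d.length (D * H) (fun l => G (y :: l))) /
          (H : ℝ) := by gcongr
      _ = (D : ℝ) ^ (d.length + 1) *
          ((∑ y ∈ range (D * H), av d.length (D * H) (fun l => G (y :: l))) / ((D * H : ℕ) : ℝ)) := by
          push_cast
          field_simp
          ring

variable {X : Type} [MeasurableSpace X] {μ : Measure X} [IsProbabilityMeasure μ]

/-- nonzero dilations of a null function -/
theorem null_dilate (A : Act X μ) (f : X → ℂ) (hf : Bdd f) (d : List ℤ) (hd : ∀ x ∈ d, x ≠ 0)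
    (hnull : Null A d.length f) :
    Tendsto (fun H : ℕ => av d.length H
      (fun m => (Cor A (List.zipWith (fun (x : ℤ) (h : ℕ) => x * (h : ℤ)) d m) f) ^ 2))
      atTop (𝓝 0) := by
  set D : ℕ := (d.map Int.natAbs).sum + 1 with hD
  have hD1 : 1 ≤ D := by omega
  set G : List ℕ → ℝ := fun l => (Cor A (l.map (fun h : ℕ => (h : ℤ))) f) ^ 2 with hG
  have hnull' : Tendsto (fun K : ℕ => av d.length K G) atTop (𝓝 0) := hnull
  have h1 : Tendsto (fun H : ℕ => (D : ℝ) ^ d.length * av d.length (D * H) G) atTop (𝓝 0) := by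
    have h2 : Tendsto (fun H : ℕ => D * H) atTop atTop :=
      tendsto_id.const_mul_atTop' (by omega)
    have := (hnull'.comp h2).const_mul ((D : ℝ) ^ d.length)
    simpa using this
  refine tendsto_of_tendsto_of_tendsto_of_le_of_le' tendsto_const_nhds h1
    (Filter.Eventually.of_forall fun H => av_nonneg _ _ (fun m => sq_nonneg _)) ?_
  filter_upwards [eventually_ge_atTop 1] with H hH
  have h3 := av_dilate D H hD1 hH (d.map Int.natAbs) (by
    intro x hx
    rw [List.mem_map] at hx
    obtain ⟨y, hy, rfl⟩ := hx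
    refine ⟨Int.natAbs_pos.2 (hd y hy), ?_⟩
    have : y.natAbs ≤ (d.map Int.natAbs).sum :=
      List.single_le_sum (by simp) _ (List.mem_map.2 ⟨y, hy, rfl⟩)
    omega) G (fun l => sq_nonneg _)
  rw [List.length_map] at h3
  refine le_trans (le_of_eq ?_) h3
  congr 1
  funext m
  rw [hG]
  simp only
  congr 1
  rw [← cor_natAbs A f hf (List.zipWith (fun (x : ℤ) (h : ℕ) => x * (h : ℤ)) d m)]
  congr 1
  clear hnull hd h1 h3 hnull' hG G hD1 hD D
  induction d generalizing m with
  | nil => simp
  | cons y d ih =>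
    cases m with
    | nil => simp
    | cons h m =>
      simp only [List.zipWith_cons_cons, List.map_cons, ih]
      congr 1
      rw [Int.natAbs_mul]
      simp

theorem bddTens {f : X → ℂ} (hf : Bdd f) : Bdd (tens f) := T8.bdd_tens hf

theorem integral_cub_tens (A : Act X μ) (f : X → ℂ) (l : List ℤ) :
    ∫ z, cub A.prod l (tens f) z ∂(μ.prod μ) = (((Cor A l f) ^ 2 : ℝ) : ℂ) := by
  rw [T8.cub_tens, T8.integral_tens, RCLike.mul_conj]
  simp [Cor]

theorem avg_ofReal (N : ℕ) (a : ℕ → ℝ) : avg N (fun n => ((a n : ℝ) : ℂ)) = ((ravg N a : ℝ) : ℂ) := by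
  rw [avg, ravg]
  push_cast
  rfl

end SlowCor

open SlowCor

/-- R2 -/
theorem slowcor (r : ℕ) (hr : 1 ≤ r) : ∃ s : ℕ, 1 ≤ s ∧
    ∀ (X : Type) [MeasurableSpace X] (μ : Measure X) [IsProbabilityMeasure μ] (A : Act X μ)
      (f : X → ℂ), Bdd f → Null A s f → ∀ L : List ℤ, L.length = r → NZ L → ∀ ε > 0,
      ∃ N₀ : ℕ, ∀ N ≥ N₀, ∀ κ : List ℤ, κ.length = r → ∀ a : ℤ,
        ravg N (fun s => Cor A (List.zipWith (fun u v => u * (a + s) ^ 2 + v) L κ) f ^ 2) ≤ ε := by
  classical
  obtain ⟨t, k, C, ds, hds, hC, hprop, hmain⟩ := pet2 r hr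
  refine ⟨ds.length, List.length_pos_iff.2 hds, ?_⟩
  intro X _ μ _ A f hf hnull L hL hNZ ε hε
  set η : ℝ := ε ^ (2 ^ k) with hη
  have hη0 : 0 < η := by positivity
  -- choice of H₁
  have hlim1 : Tendsto (fun H : ℕ => C * (ds.length * (C / H))) atTop (𝓝 0) := by
    have := (tendsto_const_div_atTop_nhds_zero_nat C).const_mul (C * ds.length)
    simp only [mul_zero] at this
    refine this.congr fun H => ?_
    ring
  obtain ⟨H₁, hH₁, hH₁1⟩ := ((tendsto_order.1 hlim1).2 (η / 3) (by positivity)
    |>.and (eventually_ge_atTop 1)).exists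
  -- the averaged function
  set g : ℕ → List ℕ → ℝ := fun H₂ l => av ds.length H₂ (fun m => (Cor A (List.zipWith
        (fun (δ : List ℤ → List ℕ → ℤ) (h : ℕ) => δ L l * (h : ℤ)) ds m) f) ^ 2) with hg
  set φ : ℕ → List ℕ → ℝ := fun H₂ l => if ∀ δ ∈ ds, δ L l ≠ 0 then g H₂ l else 0 with hφ
  have hφlim : ∀ l, Tendsto (fun n => φ n l) atTop (𝓝 0) := by
    intro l
    by_cases hl : ∀ δ ∈ ds, δ L l ≠ 0
    · have h1 := null_dilate A f hf (ds.map (fun δ => δ L l)) (by
        intro x hx
        rw [List.mem_map] at hx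
        obtain ⟨δ, hδ, rfl⟩ := hx
        exact hl δ hδ) (by rw [List.length_map]; exact hnull)
      rw [List.length_map] at h1
      refine h1.congr fun H => ?_
      simp only [hφ, hg]
      rw [if_pos hl]
      congr 1
      funext m
      rw [List.zipWith_map_left]
    · have : (fun n => φ n l) = fun _ => 0 := by
        funext n
        simp only [hφ]
        rw [if_neg hl]
      rw [this]
      exact tendsto_const_nhds
  have hlim2 := (av_tendsto t H₁ φ hφlim).const_mul C
  rw [mul_zero] at hlim2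
  obtain ⟨H₂, hH₂, hH₂1⟩ := ((tendsto_order.1 hlim2).2 (η / 3) (by positivity)
    |>.and (eventually_ge_atTop 1)).exists
  -- choice of N₀
  have hlim3 : Tendsto (fun N : ℕ => C * (((H₁ + H₂ : ℕ) : ℝ) / N)) atTop (𝓝 0) := by
    have := (tendsto_const_div_atTop_nhds_zero_nat ((H₁ + H₂ : ℕ) : ℝ)).const_mul C
    simpa using this
  obtain ⟨N₀, hN₀⟩ := Filter.eventually_atTop.1 (((tendsto_order.1 hlim3).2 (η / 3)
    (by positivity)).and (eventually_ge_atTop 1))
  refine ⟨N₀, fun N hN κ hκ a => ?_⟩
  obtain ⟨hN1, hN2⟩ := hN₀ N hN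
  have hm := hmain (X × X) (μ.prod μ) A.prod L κ hL hκ hNZ a (tens f) (bddTens hf) H₁ H₂ N
    hH₁1 hH₂1 hN2
  simp only [integral_cub_tens] at hm
  rw [avg_ofReal, Complex.norm_real, Real.norm_eq_abs] at hm
  -- bound of the average over l
  have hgle : ∀ l, g H₂ l ≤ φ H₂ l +
      (ds.map (fun δ => if δ L l = 0 then (1 : ℝ) else 0)).sum := by
    intro l
    by_cases hl : ∀ δ ∈ ds, δ L l ≠ 0
    · have h0 : 0 ≤ (ds.map (fun δ => if δ L l = 0 then (1 : ℝ) else 0)).sum := by
        refine List.sum_nonneg fun x hx => ?_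
        rw [List.mem_map] at hx
        obtain ⟨δ, _, rfl⟩ := hx
        split_ifs <;> norm_num
      simp only [hφ]
      rw [if_pos hl]
      linarith
    · simp only [hφ]
      rw [if_neg hl, zero_add]
      push Not at hl
      obtain ⟨δ, hδ, h0⟩ := hl
      have h1 : (1 : ℝ) ≤ (ds.map (fun δ => if δ L l = 0 then (1 : ℝ) else 0)).sum := by
        have h2 : (if δ L l = 0 then (1 : ℝ) else 0) ∈
            (ds.map (fun δ => if δ L l = 0 then (1 : ℝ) else 0)) := List.mem_map.2 ⟨δ, hδ, rfl⟩
        have h3 := List.single_le_sum (l := ds.map (fun δ => if δ L l = 0 then (1 : ℝ) else 0))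
          (by
            intro x hx
            rw [List.mem_map] at hx
            obtain ⟨δ, _, rfl⟩ := hx
            split_ifs <;> norm_num) _ h2
        rw [if_pos h0] at h3
        exact h3
      refine le_trans (av_le_one _ _ fun m => ?_) h1
      have h4 : Cor A (List.zipWith
        (fun (δ : List ℤ → List ℕ → ℤ) (h : ℕ) => δ L l * (h : ℤ)) ds m) f ≤ 1 :=
        (T8.bdd_cub A _ hf).norm_integral_le
      have h5 : 0 ≤ Cor A (List.zipWith
        (fun (δ : List ℤ → List ℕ → ℤ) (h : ℕ) => δ L l * (h : ℤ)) ds m) f := norm_nonneg _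
      exact pow_le_one₀ h5 h4
  have hsum : ∀ ds' : List (List ℤ → List ℕ → ℤ), (∀ δ ∈ ds', δ ∈ ds) →
      av t H₁ (fun l => (ds'.map (fun δ => if δ L l = 0 then (1 : ℝ) else 0)).sum) ≤
        ds'.length * (C / H₁) := by
    intro ds'
    induction ds' with
    | nil =>
      intro _
      simp only [List.map_nil, List.sum_nil, List.length_nil, Nat.cast_zero, zero_mul]
      exact (av_zero_fun t H₁).le
    | cons δ ds' ih =>
      intro h
      simp only [List.map_cons, List.sum_cons, List.length_cons]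
      rw [SlowCor.av_add]
      have h1 := hprop δ (h δ (by simp)) L hL hNZ H₁ hH₁1
      have h2 := ih (fun δ hδ => h δ (by simp [hδ]))
      push_cast
      linarith
  have hav : av t H₁ (fun l => av ds.length H₂ (fun m => Cor A.prod (List.zipWith
        (fun (δ : List ℤ → List ℕ → ℤ) (h : ℕ) => δ L l * (h : ℤ)) ds m) (tens f))) ≤
      av t H₁ (φ H₂) + ds.length * (C / H₁) := by
    calc av t H₁ (fun l => av ds.length H₂ (fun m => Cor A.prod (List.zipWith
        (fun (δ : List ℤ → List ℕ → ℤ) (h : ℕ) => δ L l * (h : ℤ)) ds m) (tens f)))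
        = av t H₁ (fun l => g H₂ l) := by
          congr 1
          funext l
          simp only [hg]
          congr 1
          funext m
          rw [cor_tens A f hf]
      _ ≤ av t H₁ (fun l => φ H₂ l +
          (ds.map (fun δ => if δ L l = 0 then (1 : ℝ) else 0)).sum) :=
          SlowCor.av_mono t H₁ fun l _ => hgle l
      _ = av t H₁ (φ H₂) +
          av t H₁ (fun l => (ds.map (fun δ => if δ L l = 0 then (1 : ℝ) else 0)).sum) :=
          SlowCor.av_add _ _ _ _
      _ ≤ av t H₁ (φ H₂) + ds.length * (C / H₁) := by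
          gcongr
          exact hsum ds (fun δ hδ => hδ)
  set R := ravg N (fun s => Cor A (List.zipWith (fun u v => u * (a + s) ^ 2 + v) L κ) f ^ 2)
    with hR
  have hR0 : 0 ≤ R := ravg_nonneg N fun n _ => sq_nonneg _
  rw [abs_of_nonneg hR0] at hm
  have hfin : R ^ (2 ^ k) ≤ ε ^ (2 ^ k) := by
    have h1 := mul_le_mul_of_nonneg_left hav hC
    rw [mul_add] at h1
    linarith
  exact le_of_pow_le_pow_left₀ (by positivity) hε.le hfin

end Pool.Agent.JE
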