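import Mathlib

/-!
Van der Corput's inequality in a Hilbert space and averages of unitary powers along squares
(for MP_ce5406_an, block T12).
-/

open Filter Topology Finset
open scoped BigOperators ComplexConjugate

namespace Pool.Agent.JE.Slow

section vdc

variable {E : Type*} [NormedAddCommGroup E] [InnerProductSpace ℂ E]

theorem shift_sum (w : ℕ → E) (hw : ∀ i, ‖w i‖ ≤ 1) (L h : ℕ) :
    ‖∑ i ∈ range L, w i - ∑ i ∈ range L, w (i + h)‖ ≤ 2 * h := by
  induction h with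
  | zero => simp
  | succ h ih =>
    have e1 : ∑ i ∈ range L, w (i + (h + 1)) =
        ∑ i ∈ range L, w (i + h) - w h + w (L + h) := by
      have e2 := Finset.sum_range_succ (fun i => w (i + h)) L
      have e3 := Finset.sum_range_succ' (fun i => w (i + h)) L
      rw [e2] at e3
      simp only [Nat.zero_add] at e3
      have e4 : ∑ i ∈ range L, w (i + (h + 1)) = ∑ i ∈ range L, w (i + 1 + h) := by
        refine Finset.sum_congr rfl fun i _ => ?_
        congr 1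
        ring
      rw [e4]
      rw [eq_comm, sub_add_eq_add_sub, e3]
      simp
    rw [e1]
    calc ‖∑ i ∈ range L, w i - (∑ i ∈ range L, w (i + h) - w h + w (L + h))‖
        = ‖(∑ i ∈ range L, w i - ∑ i ∈ range L, w (i + h)) + (w h - w (L + h))‖ := by
          congr 1
          abel
      _ ≤ ‖∑ i ∈ range L, w i - ∑ i ∈ range L, w (i + h)‖ + ‖w h - w (L + h)‖ := norm_add_le _ _
      _ ≤ 2 * h + (1 + 1) := by
          gcongr
          exact (norm_sub_le _ _).trans (add_le_add (hw _) (hw _))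
      _ = 2 * ((h + 1 : ℕ) : ℝ) := by
          push_cast
          ring

theorem vdc (w : ℕ → E) (hw : ∀ i, ‖w i‖ ≤ 1) (H L : ℕ) (hH : 1 ≤ H) (ε : ℝ) (hε : 0 < ε)
    (h1 : 8 ≤ ε ^ 2 * H) (h2 : 4 * H ≤ ε * L)
    (h3 : ∀ h < H, ∀ h' < h, ‖∑ i ∈ range L, (inner ℂ (w (i + h)) (w (i + h')))‖ ≤
      ε ^ 2 / 8 * L) :
    ‖∑ i ∈ range L, w i‖ ≤ ε * L := by
  set A := ∑ i ∈ range L, w i with hA
  set B := ∑ i ∈ range L, ∑ h ∈ range H, w (i + h) with hB
  have hH0 : (0 : ℝ) < H := by exact_mod_cast hH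
  -- step 1
  have s1 : ‖(H : ℝ) • A - B‖ ≤ 2 * (H : ℝ) ^ 2 := by
    have e1 : (H : ℝ) • A - B = ∑ h ∈ range H, (A - ∑ i ∈ range L, w (i + h)) := by
      rw [Finset.sum_sub_distrib, hB, Finset.sum_comm]
      simp
      exact_mod_cast rfl
    rw [e1]
    calc ‖∑ h ∈ range H, (A - ∑ i ∈ range L, w (i + h))‖
        ≤ ∑ h ∈ range H, ‖A - ∑ i ∈ range L, w (i + h)‖ := norm_sum_le _ _
      _ ≤ ∑ h ∈ range H, (2 * (H : ℝ)) := by
          refine Finset.sum_le_sum fun h hh => ?_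
          refine (shift_sum w hw L h).trans ?_
          have : (h : ℝ) ≤ H := by exact_mod_cast (Finset.mem_range.1 hh).le
          linarith
      _ = 2 * (H : ℝ) ^ 2 := by
          simp
          ring
  -- correlations
  have c1 : ∀ h < H, ∀ h' < H,
      ‖∑ i ∈ range L, (inner ℂ (w (i + h)) (w (i + h')))‖ ≤
        (if h = h' then (L : ℝ) else 0) + ε ^ 2 / 8 * L := by
    intro h hh h' hh'
    rcases lt_trichotomy h h' with hlt | heq | hgt
    · rw [if_neg hlt.ne, zero_add]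
      have := h3 h' hh' h hlt
      have e : ∑ i ∈ range L, (inner ℂ (w (i + h)) (w (i + h'))) =
          conj (∑ i ∈ range L, (inner ℂ (w (i + h')) (w (i + h)))) := by
        rw [map_sum]
        refine Finset.sum_congr rfl fun i _ => ?_
        rw [inner_conj_symm]
      rw [e, RCLike.norm_conj]
      exact this
    · subst heq
      rw [if_pos rfl]
      have : ‖∑ i ∈ range L, (inner ℂ (w (i + h)) (w (i + h)))‖ ≤ (L : ℝ) := by
        calc ‖∑ i ∈ range L, (inner ℂ (w (i + h)) (w (i + h)))‖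
            ≤ ∑ i ∈ range L, ‖(inner ℂ (w (i + h)) (w (i + h)) : ℂ)‖ := norm_sum_le _ _
          _ ≤ ∑ i ∈ range L, (1 : ℝ) := by
              refine Finset.sum_le_sum fun i _ => ?_
              refine (norm_inner_le_norm _ _).trans ?_
              have := hw (i + h)
              have h0 := norm_nonneg (w (i + h))
              nlinarith
          _ = L := by simp
      have h0 : 0 ≤ ε ^ 2 / 8 * L := by positivity
      linarith
    · rw [if_neg hgt.ne', zero_add]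
      exact h3 h hh h' hgt
  -- step 2
  have s2 : ∑ i ∈ range L, ‖∑ h ∈ range H, w (i + h)‖ ^ 2 ≤
      H * L + (H : ℝ) ^ 2 * (ε ^ 2 / 8 * L) := by
    have e1 : ∀ i, ‖∑ h ∈ range H, w (i + h)‖ ^ 2 =
        (∑ h ∈ range H, ∑ h' ∈ range H, (inner ℂ (w (i + h)) (w (i + h')))).re := by
      intro i
      rw [← inner_self_eq_norm_sq (𝕜 := ℂ)]
      rw [sum_inner]
      simp_rw [inner_sum]
      rfl
    calc ∑ i ∈ range L, ‖∑ h ∈ range H, w (i + h)‖ ^ 2
        = (∑ h ∈ range H, ∑ h' ∈ range H, ∑ i ∈ range L,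
            (inner ℂ (w (i + h)) (w (i + h')))).re := by
          simp_rw [e1]
          rw [← Complex.re_sum]
          congr 1
          rw [Finset.sum_comm]
          refine Finset.sum_congr rfl fun h _ => ?_
          rw [Finset.sum_comm]
      _ ≤ ‖∑ h ∈ range H, ∑ h' ∈ range H, ∑ i ∈ range L,
            (inner ℂ (w (i + h)) (w (i + h')))‖ := Complex.re_le_norm _
      _ ≤ ∑ h ∈ range H, ∑ h' ∈ range H, ((if h = h' then (L : ℝ) else 0) + ε ^ 2 / 8 * L) := by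
          refine (norm_sum_le _ _).trans (Finset.sum_le_sum fun h hh => ?_)
          refine (norm_sum_le _ _).trans (Finset.sum_le_sum fun h' hh' => ?_)
          exact c1 h (Finset.mem_range.1 hh) h' (Finset.mem_range.1 hh')
      _ = H * L + (H : ℝ) ^ 2 * (ε ^ 2 / 8 * L) := by
          simp only [Finset.sum_add_distrib, Finset.sum_ite_eq, Finset.sum_const, Finset.card_range,
            nsmul_eq_mul]
          have : ∑ x ∈ range H, (if x ∈ range H then (L : ℝ) else 0) = H * L := by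
            rw [Finset.sum_congr rfl (fun x hx => if_pos hx)]
            simp
          rw [this]
          ring
  have s3 : ‖B‖ ^ 2 ≤ (L * H * (ε / 2)) ^ 2 := by
    calc ‖B‖ ^ 2 ≤ (∑ i ∈ range L, ‖∑ h ∈ range H, w (i + h)‖) ^ 2 := by
          gcongr
          exact norm_sum_le _ _
      _ ≤ (range L).card * ∑ i ∈ range L, ‖∑ h ∈ range H, w (i + h)‖ ^ 2 :=
          sq_sum_le_card_mul_sum_sq
      _ ≤ L * (H * L + (H : ℝ) ^ 2 * (ε ^ 2 / 8 * L)) := by
          rw [Finset.card_range]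
          gcongr
      _ ≤ (L * H * (ε / 2)) ^ 2 := by
          have h4 : (H : ℝ) * 8 ≤ ε ^ 2 * H * H := by nlinarith
          have hL : (0 : ℝ) ≤ (L : ℝ) ^ 2 := by positivity
          nlinarith [mul_le_mul_of_nonneg_left h4 hL]
  have s4 : ‖B‖ ≤ L * H * (ε / 2) := by
    have h0 : (0 : ℝ) ≤ L * H * (ε / 2) := by positivity
    exact (sq_le_sq₀ (norm_nonneg _) h0).1 s3
  have s5 : (H : ℝ) * ‖A‖ ≤ H * (ε * L) := by
    calc (H : ℝ) * ‖A‖ = ‖(H : ℝ) • A‖ := by
          rw [norm_smul, Real.norm_of_nonneg hH0.le]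
      _ = ‖((H : ℝ) • A - B) + B‖ := by rw [sub_add_cancel]
      _ ≤ ‖(H : ℝ) • A - B‖ + ‖B‖ := norm_add_le _ _
      _ ≤ 2 * (H : ℝ) ^ 2 + L * H * (ε / 2) := add_le_add s1 s4
      _ ≤ H * (ε * L) := by nlinarith
  exact le_of_mul_le_mul_left s5 hH0

/-- Averages of unitary powers along shifted squares tend to zero uniformly in the shift. -/
theorem squares (U : ℤ → E →ₗᵢ[ℂ] E) (hU : ∀ a b v, U (a + b) v = U b (U a v))
    (v : E) (hv : ‖v‖ ≤ 1)
    (hm : ∀ m : ℕ, 1 ≤ m → Tendsto (fun L : ℕ => ‖(L : ℝ)⁻¹ • ∑ i ∈ range L, U (m * i) v‖)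
      atTop (𝓝 0)) (ε : ℝ) (hε : 0 < ε) :
    ∃ L : ℕ, 1 ≤ L ∧ ∀ b0 : ℕ, ‖(L : ℝ)⁻¹ • ∑ i ∈ range L, U (((b0 + i : ℕ) : ℤ) ^ 2) v‖ ≤ ε := by
  obtain ⟨H, hH⟩ := exists_nat_ge (8 / ε ^ 2)
  have hε2 : 0 < ε ^ 2 := by positivity
  have h1 : 8 ≤ ε ^ 2 * H := by
    rw [div_le_iff₀ hε2] at hH
    linarith
  have hH1 : 1 ≤ H := by
    rcases Nat.eq_zero_or_pos H with h | h
    · subst h
      simp at h1
      linarith
    · exact h
  have ev1 : ∀ᶠ L : ℕ in atTop, ∀ m ∈ Finset.Icc 1 (2 * H),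
      ‖(L : ℝ)⁻¹ • ∑ i ∈ range L, U ((m : ℕ) * i) v‖ < ε ^ 2 / 8 := by
    rw [Filter.eventually_all_finset]
    intro m hmm
    have := hm m (Finset.mem_Icc.1 hmm).1
    exact (tendsto_order.1 this).2 _ (by positivity)
  obtain ⟨L0, hL0⟩ := exists_nat_ge (4 * H / ε)
  obtain ⟨L, hL1, hL2, hL3⟩ := (ev1.and ((eventually_ge_atTop L0).and
    (eventually_ge_atTop 1))).exists
  refine ⟨L, hL3, fun b0 => ?_⟩
  have hLpos : (0 : ℝ) < L := by exact_mod_cast hL3
  have h2 : 4 * (H : ℝ) ≤ ε * L := by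
    rw [div_le_iff₀ hε] at hL0
    have : (L0 : ℝ) ≤ L := by exact_mod_cast hL2
    nlinarith
  rw [norm_smul, norm_inv, Real.norm_of_nonneg hLpos.le, inv_mul_le_iff₀ hLpos, mul_comm]
  refine vdc (fun i => U (((b0 + i : ℕ) : ℤ) ^ 2) v) (fun i => ?_) H L hH1 ε hε h1 h2 ?_
  · simpa using hv
  · intro h hh h' hh'
    -- the correlation
    obtain ⟨k, rfl⟩ := Nat.exists_eq_add_of_lt hh'
    set m := 2 * (k + 1) with hmdef
    set c : ℤ := ((k : ℤ) + 1) * (2 * b0 + (h' + k + 1) + h') with hc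
    have key : ∀ i : ℕ, inner ℂ (U (((b0 + (i + (h' + k + 1)) : ℕ) : ℤ) ^ 2) v)
        (U (((b0 + (i + h') : ℕ) : ℤ) ^ 2) v) = inner ℂ (U c (U ((m : ℕ) * i) v)) v := by
      intro i
      have e1 : (((b0 + (i + (h' + k + 1)) : ℕ) : ℤ) ^ 2) =
          ((m : ℕ) * i + c) + (((b0 + (i + h') : ℕ) : ℤ) ^ 2) := by
        rw [hmdef, hc]
        push_cast
        ring
      rw [e1, hU, LinearIsometry.inner_map_map, hU]
    have e2 : ∑ i ∈ range L, inner ℂ (U (((b0 + (i + (h' + k + 1)) : ℕ) : ℤ) ^ 2) v)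
        (U (((b0 + (i + h') : ℕ) : ℤ) ^ 2) v) =
        inner ℂ (U c (∑ i ∈ range L, U ((m : ℕ) * i) v)) v := by
      rw [map_sum, sum_inner]
      exact Finset.sum_congr rfl fun i _ => key i
    show ‖∑ i ∈ range L, inner ℂ (U (((b0 + (i + (h' + k + 1)) : ℕ) : ℤ) ^ 2) v)
        (U (((b0 + (i + h') : ℕ) : ℤ) ^ 2) v)‖ ≤ _
    rw [e2]
    have e3 := hL1 m (by rw [Finset.mem_Icc]; omega)
    rw [norm_smul, norm_inv, Real.norm_of_nonneg hLpos.le, inv_mul_lt_iff₀ hLpos] at e3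
    calc ‖(inner ℂ (U c (∑ i ∈ range L, U ((m : ℕ) * i) v)) v : ℂ)‖
        ≤ ‖U c (∑ i ∈ range L, U ((m : ℕ) * i) v)‖ * ‖v‖ := norm_inner_le_norm _ _
      _ = ‖∑ i ∈ range L, U ((m : ℕ) * i) v‖ * ‖v‖ := by rw [LinearIsometry.norm_map]
      _ ≤ ‖∑ i ∈ range L, U ((m : ℕ) * i) v‖ * 1 := by gcongr
      _ ≤ ε ^ 2 / 8 * L := by
          rw [mul_one]
          linarith

end vdc

end Pool.Agent.JE.Slow
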