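import Pool.Agent.Helper65.JE.Defs
import Pool.Agent.Helper40.JE.Vdc

/-!
Koopman operators on `L²` and the uniform mean ergodic theorem along squares
(for MP_ce5406_an, block T12).
-/

open MeasureTheory Filter Topology Finset
open scoped BigOperators ComplexConjugate

namespace Pool.Agent.JE.Slow

variable {X : Type} [MeasurableSpace X] {μ : Measure X} [IsProbabilityMeasure μ]

/-- The Koopman operator. -/
noncomputable def U (A : Act X μ) (k : ℤ) : Lp ℂ 2 μ →ₗᵢ[ℂ] Lp ℂ 2 μ :=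
  Lp.compMeasurePreservingₗᵢ ℂ (A.S k) (A.mp k)

theorem U_toLp (A : Act X μ) (k : ℤ) {g : X → ℂ} (hg : MemLp g 2 μ) :
    U A k (hg.toLp g) = (hg.comp_measurePreserving (A.mp k)).toLp (g ∘ A.S k) := rfl

theorem U_add (A : Act X μ) (a b : ℤ) (v : Lp ℂ 2 μ) : U A (a + b) v = U A b (U A a v) := by
  have hv := Lp.toLp_coeFn v (Lp.memLp v)
  rw [← hv]
  rw [U_toLp, U_toLp, U_toLp]
  refine MemLp.toLp_congr _ _ ?_
  refine Filter.Eventually.of_forall fun x => ?_
  simp only [Function.comp]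
  rw [A.add]

theorem U_zero (A : Act X μ) (v : Lp ℂ 2 μ) : U A 0 v = v := by
  have hv := Lp.toLp_coeFn v (Lp.memLp v)
  rw [← hv]
  rw [U_toLp]
  refine MemLp.toLp_congr _ _ ?_
  refine Filter.Eventually.of_forall fun x => ?_
  simp only [Function.comp]
  rw [A.zero]

theorem U_iter (A : Act X μ) (m : ℤ) (v : Lp ℂ 2 μ) (i : ℕ) :
    (U A m)^[i] v = U A (m * i) v := by
  induction i with
  | zero => simp [U_zero]
  | succ i ih =>
    rw [Function.iterate_succ_apply', ih, ← U_add]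
    congr 1
    push_cast
    ring_nf

/-- Mean ergodic theorem for `S^m`, mean zero vectors. -/
theorem mean_zero (A : Act X μ) (m : ℕ) (he : Ergodic (A.S m) μ) (v : Lp ℂ 2 μ)
    (hv : ∫ x, v x ∂μ = 0) :
    Tendsto (fun L : ℕ => ‖(L : ℝ)⁻¹ • ∑ i ∈ range L, U A (m * i) v‖) atTop (𝓝 0) := by
  have h1 := ContinuousLinearMap.tendsto_birkhoffAverage_orthogonalProjection
    (𝕜 := ℂ) (U A m).toContinuousLinearMap (LinearIsometry.norm_toContinuousLinearMap_le _) v
  have h2 : ((((U A m).toContinuousLinearMap).eqLocus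
      (1 : Lp ℂ 2 μ →L[ℂ] Lp ℂ 2 μ)).orthogonalProjectionOnto v) = 0 := by
    rw [Submodule.orthogonalProjectionOnto_eq_zero_iff]
    rw [Submodule.mem_orthogonal]
    intro u hu
    have hu' : U A m u = u := by
      simpa [LinearMap.mem_eqLocus] using hu
    have hc : (u : X → ℂ) ∘ (A.S m) =ᵐ[μ] u := by
      have := Lp.coeFn_compMeasurePreserving u (A.mp m)
      have h3 : (Lp.compMeasurePreserving (A.S m) (A.mp m) u) = u := hu'
      rw [h3] at this
      exact this.symm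
    obtain ⟨c, hc⟩ := he.ae_eq_const_of_ae_eq_comp_ae (Lp.aestronglyMeasurable u) hc
    rw [L2.inner_def]
    have : ∫ a, inner ℂ (u a) (v a) ∂μ = ∫ a, (v a) * conj c ∂μ := by
      refine integral_congr_ae ?_
      filter_upwards [hc] with x hx
      rw [hx]
      simp
    rw [this, integral_mul_const, hv, zero_mul]
  rw [h2] at h1
  have h3 := h1.norm
  simp only [ZeroMemClass.coe_zero, norm_zero] at h3
  refine h3.congr fun L => ?_
  rw [birkhoffAverage, birkhoffSum]
  rw [norm_smul, norm_smul]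
  congr 1
  · simp
  · congr 1
    refine Finset.sum_congr rfl fun i _ => ?_
    simp only [_root_.id]
    exact U_iter A m v i

/-- uniform averages along squares -/
theorem squares_uniform (A : Act X μ) (hte : ∀ m : ℕ, 1 ≤ m → Ergodic (A.S m) μ)
    (v : Lp ℂ 2 μ) (hv1 : ‖v‖ ≤ 1) (hv : ∫ x, v x ∂μ = 0) (ε : ℝ) (hε : 0 < ε) :
    ∃ L : ℕ, 1 ≤ L ∧ ∀ b0 : ℕ,
      ‖(L : ℝ)⁻¹ • ∑ i ∈ range L, U A (((b0 + i : ℕ) : ℤ) ^ 2) v‖ ≤ ε :=
  squares (U A) (U_add A) v hv1 (fun m hm => mean_zero A m (hte m hm) v hv) ε hε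

end Pool.Agent.JE.Slow
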