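import Pool.Agent.Helper44.JE.P0loc
import Pool.Agent.Helper87.JE.Taylor
import Pool.Agent.Helper87.JE.ExpSum
import Pool.Agent.Helper66.JE.SlowAvg

/-!
Instantiation of block T11 of MP_ce5406_an (local equidistribution of the phases).
-/

open MeasureTheory Filter Topology Finset
open scoped BigOperators ComplexConjugate

namespace Pool.Agent.JE

theorem taylorHyp : H44.TaylorHyp := fun c hc W ε hε => taylor c hc W ε hε

theorem slowHyp : H44.SlowHyp := by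
  intro I _ κ γ hκ hγ hγ1 κs τs hτ g hb hg
  exact slow_avg κ γ hκ hγ hγ1 κs τs hτ g hb hg

theorem fastHyp : H44.FastHyp := by
  classical
  intro T hT κ hκ ψ c₀ hψ Λ hΛ hΛ'
  refine exp_fast T hT κ hκ ψ c₀ hψ Λ hΛ ?_
  convert hΛ' using 4

theorem equiHyp : H44.EquiHyp := fun c hc g hg hg1 => equi c hc g hg hg1

/-- T11 -/
theorem p0loc (B : Finset ℝ) (hB : ∀ b ∈ B, PosNonInt b ∧ 1 < b) (t : ℝ → ℝ)
    (ht : ∀ b ∈ B, IrrOrInt (t b)) (hirr : ∃ b ∈ B, Irrational (t b)) (ε : ℝ) (hε : 0 < ε) :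
    ∃ L : ℕ, 1 ≤ L ∧ ∀ᶠ N : ℕ in atTop,
      ravg N (fun n => ‖avg L (fun u => ∏ b ∈ B, e (t b * (sq b (n + u) : ℝ)))‖) ≤ ε :=
  H44.p0loc_of taylorHyp slowHyp fastHyp equiHyp B hB t ht hirr ε hε

end Pool.Agent.JE
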