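import Pool.Agent.Helper40.JE.Koop

/-!
The case of exponents smaller than one (MP_ce5406_an, block T12), from the theorem on averages
over slow variables (block T4), which enters as the hypothesis `SlowAvg`.
-/

open MeasureTheory Filter Topology Finset
open scoped BigOperators ComplexConjugate

namespace Pool.Agent.JE.Slow

/-- The statement of block T4. -/
def SlowAvg : Prop :=
  ∀ (E : Type) [NormedAddCommGroup E] [NormedSpace ℝ E] (I : Type) [Fintype I]
    (κ γ : ℝ) (_ : 0 < κ) (_ : 0 < γ) (_ : γ < 1) (κs τs : I → ℝ)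
    (_ : ∀ i, 0 < τs i ∧ τs i < γ) (g : (I → ℤ) → ℕ → E) (_ : ∀ σ b, ‖g σ b‖ ≤ 1)
    (_ : ∀ ε > 0, ∃ L : ℕ, 1 ≤ L ∧ ∀ σ b0, ‖(L : ℝ)⁻¹ • ∑ i ∈ range L, g σ (b0 + i)‖ ≤ ε),
    Tendsto (fun N : ℕ => ‖(N : ℝ)⁻¹ • ∑ n ∈ range N,
      g (fun i => ⌊κs i * (n : ℝ) ^ τs i⌋) ⌊κ * (n : ℝ) ^ γ⌋₊‖) atTop (𝓝 0)

variable {X : Type} [MeasurableSpace X] {μ : Measure X} [IsProbabilityMeasure μ]

theorem bdd_memLp {g : X → ℂ} (hg : Bdd g) : MemLp g 2 μ :=
  MemLp.of_bound hg.meas.aestronglyMeasurable 1 (Filter.Eventually.of_forall hg.le)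

theorem bdd_one : Bdd (fun _ : X => (1 : ℂ)) := ⟨measurable_const, fun _ => by simp⟩

theorem bdd_mul {g h : X → ℂ} (hg : Bdd g) (hh : Bdd h) : Bdd (fun x => g x * h x) :=
  ⟨hg.meas.mul hh.meas, fun x => by
    rw [norm_mul]
    exact mul_le_one₀ (hg.le x) (norm_nonneg _) (hh.le x)⟩

theorem bdd_comp (A : Act X μ) {g : X → ℂ} (hg : Bdd g) (k : ℤ) : Bdd (fun x => g (A.S k x)) :=
  ⟨hg.meas.comp (A.mp k).measurable, fun x => hg.le _⟩

theorem bdd_prod {ι : Type*} (s : Finset ι) {g : ι → X → ℂ} (hg : ∀ i, Bdd (g i)) :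
    Bdd (fun x => ∏ i ∈ s, g i x) := by
  classical
  induction s using Finset.induction_on with
  | empty => simpa using bdd_one
  | insert a s ha ih =>
    simp only [Finset.prod_insert ha]
    exact bdd_mul (hg a) ih

/-- The class of a bounded function in `L²`. -/
noncomputable def cl (μ : Measure X) [IsProbabilityMeasure μ] (g : X → ℂ) (hg : Bdd g) :
    Lp ℂ 2 μ := (bdd_memLp hg).toLp g

theorem cl_congr {g g' : X → ℂ} (hg : Bdd g) (hg' : Bdd g') (h : ∀ x, g x = g' x) :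
    cl μ g hg = cl μ g' hg' := by
  obtain rfl : g = g' := funext h
  rfl

theorem norm_cl_le_one {g : X → ℂ} (hg : Bdd g) : ‖cl μ g hg‖ ≤ 1 := by
  rw [cl]
  refine (Lp.norm_le_of_ae_bound (C := 1) (by norm_num) ?_).trans ?_
  · filter_upwards [(bdd_memLp (μ := μ) hg).coeFn_toLp] with x hx
    rw [hx]
    exact hg.le x
  · have : measureUnivNNReal μ = 1 := by
      simp [measureUnivNNReal]
    simp [this]

theorem smul_sum_coe (N : ℕ) (c : ℝ) (g : ℕ → X → ℂ) (hg : ∀ i, Bdd (g i)) :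
    (c • ∑ i ∈ range N, cl μ (g i) (hg i) : Lp ℂ 2 μ) =ᵐ[μ]
      fun x => (c : ℂ) * ∑ i ∈ range N, g i x := by
  have h1 : ∀ N : ℕ, (∑ i ∈ range N, cl μ (g i) (hg i) : Lp ℂ 2 μ) =ᵐ[μ]
      fun x => ∑ i ∈ range N, g i x := by
    intro N
    induction N with
    | zero =>
      simp only [Finset.range_zero, Finset.sum_empty]
      exact Lp.coeFn_zero _ _ _
    | succ N ih =>
      rw [Finset.sum_range_succ]
      refine (Lp.coeFn_add _ _).trans ?_
      filter_upwards [ih, (bdd_memLp (μ := μ) (hg N)).coeFn_toLp] with x h1 h2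
      rw [Pi.add_apply, h1, Finset.sum_range_succ, cl, h2]
  refine (Lp.coeFn_smul _ _).trans ?_
  filter_upwards [h1 N] with x hx
  rw [Pi.smul_apply, hx]
  simp

/-- averages as elements of `L²` -/
theorem n2_eq_norm {F : X → ℂ} (v : Lp ℂ 2 μ) (h : v =ᵐ[μ] F) : n2 μ F = ‖v‖ := by
  have h1 : ‖v‖ ^ 2 = ∫ x, ‖F x‖ ^ 2 ∂μ := by
    have := inner_self_eq_norm_sq (𝕜 := ℂ) v
    rw [← this, L2.inner_def, ← integral_re]
    · refine integral_congr_ae ?_
      filter_upwards [h] with x hx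
      rw [hx, inner_self_eq_norm_sq]
    · exact L2.integrable_inner v v
  rw [n2, ← h1, Real.sqrt_sq (norm_nonneg _)]

theorem norm_mul_le (N : ℕ) (c : ℝ) (P : X → ℂ) (hP : Bdd P) (g : ℕ → X → ℂ)
    (hg : ∀ i, Bdd (g i)) :
    ‖(c • ∑ i ∈ range N, cl μ (fun x => P x * g i x) (bdd_mul hP (hg i)) : Lp ℂ 2 μ)‖ ≤
      ‖(c • ∑ i ∈ range N, cl μ (g i) (hg i) : Lp ℂ 2 μ)‖ := by
  refine Lp.norm_le_norm_of_ae_le ?_
  filter_upwards [smul_sum_coe (μ := μ) N c g hg,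
    smul_sum_coe (μ := μ) N c (fun i x => P x * g i x) (fun i => bdd_mul hP (hg i))] with x h1 h2
  rw [h1, h2]
  rw [← Finset.mul_sum, mul_left_comm, norm_mul]
  exact mul_le_of_le_one_left (norm_nonneg _) (hP.le x)

/-- The key step: a factor of mean zero with the largest exponent. -/
theorem zero_step (hT4 : SlowAvg) (A : Act X μ) (hte : ∀ m : ℕ, 1 ≤ m → Ergodic (A.S m) μ)
    (B : Finset ℝ) (c : ℝ) (hc : 0 < c ∧ c < 1) (hB : ∀ b ∈ B, 0 < b ∧ b < c)
    (f : ℝ → X → ℂ) (hf : ∀ b, Bdd (f b)) (g : X → ℂ) (hg : Bdd g) (hg0 : ∫ x, g x ∂μ = 0) :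
    Tendsto (fun N : ℕ => ‖(N : ℝ)⁻¹ • ∑ n ∈ range N,
      cl μ (fun x => (∏ b ∈ B, f b (A.S (sq b n) x)) * g (A.S (sq c n) x))
        (bdd_mul (bdd_prod B (fun b => bdd_comp A (hf b) _)) (bdd_comp A hg _))‖) atTop (𝓝 0) := by
  have h := hT4 (Lp ℂ 2 μ) B 1 c one_pos hc.1 hc.2 (fun _ => 1) (fun b => b)
    (fun i => hB i i.2)
    (fun σ b' => cl μ (fun x => (∏ b : B, f b (A.S ((σ b) ^ 2) x)) * g (A.S ((b' : ℤ) ^ 2) x))
      (bdd_mul (bdd_prod _ (fun b => bdd_comp A (hf b) _)) (bdd_comp A hg _)))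
    (fun σ b => norm_cl_le_one _) ?_
  · refine h.congr fun N => ?_
    congr 2
    refine Finset.sum_congr rfl fun n _ => ?_
    congr 1
    funext x
    congr 1
    · rw [← Finset.prod_coe_sort B]
      refine Finset.prod_congr rfl fun b _ => ?_
      congr 3
      show ⌊(1 : ℝ) * (n : ℝ) ^ (b : ℝ)⌋ = _
      rw [one_mul, ← Int.natCast_floor_eq_floor (by positivity)]
    · rw [one_mul]
      rfl
  · intro ε hε
    obtain ⟨L, hL1, hL⟩ := squares_uniform A hte (cl μ g hg) (norm_cl_le_one hg)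
      (by
        rw [← hg0]
        exact integral_congr_ae (bdd_memLp (μ := μ) hg).coeFn_toLp) ε hε
    refine ⟨L, hL1, fun σ b0 => ?_⟩
    refine (norm_mul_le L (L : ℝ)⁻¹ (fun x => ∏ b : B, f b (A.S ((σ b) ^ 2) x))
      (bdd_prod _ (fun b => bdd_comp A (hf b) _))
      (fun i x => g (A.S (((b0 + i : ℕ) : ℤ) ^ 2) x)) (fun i => bdd_comp A hg _)).trans ?_
    exact hL b0

/-- Induction, in `L²`. -/
theorem slow_L2 (hT4 : SlowAvg) (A : Act X μ) (hte : ∀ m : ℕ, 1 ≤ m → Ergodic (A.S m) μ)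
    (f : ℝ → X → ℂ) (hf : ∀ b, Bdd (f b)) (B : Finset ℝ) :
    (∀ b ∈ B, 0 < b ∧ b < 1) →
    Tendsto (fun N : ℕ => (N : ℝ)⁻¹ • ∑ n ∈ range N,
      cl μ (fun x => ∏ b ∈ B, f b (A.S (sq b n) x)) (bdd_prod B (fun b => bdd_comp A (hf b) _)))
      atTop (𝓝 ((∏ b ∈ B, ∫ y, f b y ∂μ) • cl μ (fun _ => 1) bdd_one)) := by
  induction B using Finset.induction_on_max with
  | empty =>
    intro _
    rw [Finset.prod_empty, one_smul]
    refine tendsto_const_nhds.congr' ?_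
    filter_upwards [eventually_ge_atTop 1] with N hN
    have hN0 : (N : ℝ) ≠ 0 := by
      have : (0 : ℝ) < N := by exact_mod_cast hN
      exact this.ne'
    rw [Finset.sum_congr rfl (fun n _ => cl_congr (μ := μ)
      (bdd_prod ∅ (fun b => bdd_comp A (hf b) _)) bdd_one (fun x => Finset.prod_empty)),
      Finset.sum_const, Finset.card_range, ← Nat.cast_smul_eq_nsmul ℝ, smul_smul,
      inv_mul_cancel₀ hN0, one_smul]
  | insert c B hlt ih =>
    intro hB
    have hcB : c ∉ B := fun h => lt_irrefl _ (hlt c h)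
    have ih' := ih (fun b hb => hB b (Finset.mem_insert_of_mem hb))
    set mc := ∫ y, f c y ∂μ with hmc
    have hmc1 : ‖mc‖ ≤ 1 := by
      refine (norm_integral_le_of_norm_le_const (C := 1)
        (Filter.Eventually.of_forall (hf c).le)).trans ?_
      simp
    have hg : Bdd (fun x => (1 / 2 : ℂ) * (f c x - mc)) := by
      refine ⟨((hf c).meas.sub_const _).const_mul _, fun x => ?_⟩
      rw [norm_mul]
      have h1 : ‖f c x - mc‖ ≤ 2 := (norm_sub_le _ _).trans (by linarith [(hf c).le x])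
      have h2 : ‖(1 / 2 : ℂ)‖ = 1 / 2 := by simp
      rw [h2]
      linarith
    have hint : Integrable (f c) μ := (bdd_memLp (μ := μ) (hf c)).integrable (by norm_num)
    have hg0 : ∫ x, (1 / 2 : ℂ) * (f c x - mc) ∂μ = 0 := by
      rw [integral_const_mul, integral_sub hint (integrable_const _)]
      simp [hmc]
    have hz := zero_step hT4 A hte B c (hB c (Finset.mem_insert_self _ _))
      (fun b hb => ⟨(hB b (Finset.mem_insert_of_mem hb)).1, hlt b hb⟩) f hf _ hg hg0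
    rw [tendsto_zero_iff_norm_tendsto_zero.symm] at hz
    have h2 := (hz.const_smul (2 : ℂ)).add (ih'.const_smul mc)
    rw [smul_zero, zero_add, smul_smul] at h2
    rw [Finset.prod_insert hcB]
    refine h2.congr fun N => ?_
    -- identity in L²
    rw [smul_comm (2 : ℂ), smul_comm mc, ← smul_add]
    congr 1
    rw [Finset.smul_sum, Finset.smul_sum, ← Finset.sum_add_distrib]
    refine Finset.sum_congr rfl fun n _ => ?_
    refine Lp.ext ?_
    refine (Lp.coeFn_add _ _).trans ?_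
    filter_upwards [Lp.coeFn_smul (2 : ℂ) (cl μ (fun x => (∏ b ∈ B, f b (A.S (sq b n) x)) *
        ((1 / 2 : ℂ) * (f c (A.S (sq c n) x) - mc)))
        (bdd_mul (bdd_prod B (fun b => bdd_comp A (hf b) _)) (bdd_comp A hg _))),
      Lp.coeFn_smul mc (cl μ (fun x => ∏ b ∈ B, f b (A.S (sq b n) x))
        (bdd_prod B (fun b => bdd_comp A (hf b) _))),
      (bdd_memLp (μ := μ) (bdd_mul (bdd_prod B (fun b => bdd_comp A (hf b) (sq b n)))
        (bdd_comp A hg (sq c n)))).coeFn_toLp,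
      (bdd_memLp (μ := μ) (bdd_prod B (fun b => bdd_comp A (hf b) (sq b n)))).coeFn_toLp,
      (bdd_memLp (μ := μ) (bdd_prod (insert c B)
        (fun b => bdd_comp A (hf b) (sq b n)))).coeFn_toLp] with x h1 h2 h3 h4 h5
    rw [Pi.add_apply, h1, h2, Pi.smul_apply, Pi.smul_apply, cl, cl, cl, h3, h4, h5,
      Finset.prod_insert hcB]
    simp only [smul_eq_mul]
    ring

/-- **T12**, from T4. -/
theorem slow_case_of (hT4 : SlowAvg) (A : Act X μ) (hte : ∀ m : ℕ, 1 ≤ m → Ergodic (A.S m) μ)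
    (B : Finset ℝ) (hB : ∀ b ∈ B, 0 < b ∧ b < 1) (f : ℝ → X → ℂ) (hf : ∀ b, Bdd (f b)) :
    Tendsto (fun N => n2 μ (fun x => avg N (fun n => ∏ b ∈ B, f b (A.S (sq b n) x)) -
      ∏ b ∈ B, ∫ y, f b y ∂μ)) atTop (𝓝 0) := by
  have h := slow_L2 hT4 A hte f hf B hB
  rw [tendsto_iff_norm_sub_tendsto_zero] at h
  refine h.congr fun N => ?_
  symm
  apply n2_eq_norm
  refine (Lp.coeFn_sub _ _).trans ?_
  filter_upwards [smul_sum_coe (μ := μ) N (N : ℝ)⁻¹ (fun n x => ∏ b ∈ B, f b (A.S (sq b n) x))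
      (fun n => bdd_prod B (fun b => bdd_comp A (hf b) _)),
    Lp.coeFn_smul (∏ b ∈ B, ∫ y, f b y ∂μ) (cl μ (fun _ => 1) bdd_one),
    (bdd_memLp (μ := μ) (bdd_one (X := X))).coeFn_toLp] with x h1 h2 h3
  rw [Pi.sub_apply, h1, h2, Pi.smul_apply, cl, h3, avg]
  simp only [smul_eq_mul, mul_one]
  push_cast
  ring

end Pool.Agent.JE.Slow
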